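import Pool.Agent.N510.GR.CAll

/-!
# Groups of two by two matrices over commutative graded rings and the Farrell–Jones conjecture

`C` is any class of groups with the closure properties `ClosedE C` which contains the solvable
groups, as is known for the class of the groups that satisfy the A-theoretic Farrell–Jones
conjecture with coefficients and finite wreath products.

Let `R = ⨁ Rₙ` be a commutative `ℕ`-graded ring. Zero divisors and nilpotent elements are allowed,
and there are no finiteness conditions.

1. Let `B` be a Noetherian subring of `R₀`, for example the image of `ℤ`. If `GL₂(D)` is in `C` for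
   every domain `D` which is a homomorphic image of a ring between `B` and `R₀`, then `GL₂(R)` is in
   `C`.
2. If `R₀` is a field then `GL₂(R)` is in `C` if and only if `GL₂(R₀)` is in `C`.

Outline of the proof. `R` is the directed union of the subrings `T` generated over `B` by finitely
many homogeneous elements. Such a ring `T` is Noetherian and the homogenization is a homomorphism
`T → T[X]`. Let `p` be one of the finitely many minimal prime ideals of `T`, and let `K` be the field
of fractions of `T/p`. The image `T'` of `T → T[X] → K[X]` is a subring of `K[X]` whose ring of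
constant coefficients is an image of `T₀`, so by the theorem on subrings of `K[X]`
(`Pool/Agent/N510/GR/Div.lean`, Nagao's theorem and jets) `GL₂(T')` is in `C`. The kernel of
`T → T'` is contained in `p` because `f(1) = x` for the homogenization `f` of `x`. So the
intersection of these kernels is nilpotent, and `GL₂(T)` is an iterated extension, with abelian
kernels, of a subgroup of the product of the groups `GL₂(T')`.
-/

set_option autoImplicit false

namespace Pool.Agent.Results.MP_2a547c_gt.CommutativeGradedRings

open Pool.Agent.Y110.FJ (ClosedE)

theorem result (C : ∀ (G : Type) [Group G], Prop) (hC : ClosedE C)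
    (hsol : ∀ (S : Type) [Group S], Group.IsSolvable S → C S)
    (R : Type) [CommRing R] (𝒜 : ℕ → AddSubgroup R) [GradedRing 𝒜] :
    (∀ (B : Subring R) [IsNoetherianRing B], (∀ x ∈ B, x ∈ 𝒜 0) →
      (∀ S : Subring R, B ≤ S → (∀ x ∈ S, x ∈ 𝒜 0) →
        ∀ (D : Type) [CommRing D] [IsDomain D] (h : S →+* D), Function.Surjective h →
          C (GL (Fin 2) D)) →
      C (GL (Fin 2) R)) ∧
    (IsField (𝒜 0) → (C (GL (Fin 2) R) ↔ C (GL (Fin 2) (𝒜 0)))) :=
  ⟨fun B _ hB H => Pool.Agent.N510.GR.comm_graded 𝒜 B hC hsol hB
      fun S hBS hS0 _ _ h => H S hBS hS0 h.range h.rangeRestrict h.rangeRestrict_surjective,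
    Pool.Agent.N510.GR.comm_field 𝒜 hC hsol⟩

end Pool.Agent.Results.MP_2a547c_gt.CommutativeGradedRings
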