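import Pool.Agent.N508.CS.Ea
import Pool.Agent.N508.CS.Frp
import Pool.Agent.N508.CS.Eh
import Pool.Agent.N508.CS.Cyf
import Pool.Agent.N508.CS.Dcy
import Pool.Agent.N508.CS.Dc

/-!
# Groups acting on trees whose edge groups are detected elementwise

`C` is any class of groups with the closure properties `ClosedE C` which contains the metabelian
groups. All this is published for the class of the groups whose wreath products with finite groups
satisfy the A-theoretic Farrell-Jones conjecture with coefficients (Enkelmann, Lück, Pieper, Ullmann
and Winges; Kasprowski, Ullmann, Wegner and Winges), and for the corresponding classes in K- and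
L-theory.

Let `G` act on a tree, and let the edge stabilizers be torsion-free and virtually polycyclic, or more
generally torsion-free with a bound on the length of the descending chains of subgroups
`L₀ ≥ L₁ ≥ ...` with elements `xᵢ` in `Lᵢ` no positive powers of which are in `Lᵢ₊₁` (`FR`); this holds,
for example, for the abelian groups of finite rank.

(1) Let `K` be normal in `G` with `G / K` in `C`, and let the vertex stabilizers in the groups `K⟨g⟩`, `g`
in `G`, be in `C` (for instance all vertex stabilizers in `G` are in `C`). Suppose that for all `g` in `G`,
all edges `vu` and all `x ≠ 1` in `K⟨g⟩` which fix `v` and `u` there is a homomorphism `f` from `K⟨g⟩` to a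
group in `C` such that no power `x^m`, `m > 0`, in the kernel of `f` is in the commutator subgroup of the
stabilizer of `v` in the kernel of `f`. Then `G` is in `C`.

The homomorphism may depend on the element `x`. In particular, `G` is in `C` if the vertex
stabilizers are in `C` and for each `x ≠ 1` in an edge stabilizer some homomorphism from `G` to a group
in `C` maps `x` to an element of infinite order. So `G` is in `C` if it acts on a tree with vertex
stabilizers in `C` and polycyclic edge stabilizers and is residually a torsion-free group in `C`, for
instance residually torsion-free nilpotent. In the theorem `EdgeGroupsInHomology` (for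
`MP_2a0850_gt`), which is used in the proof, one homomorphism for all elements of an edge group is
needed.

(2) Suppose that `C` satisfies `AcylF` (a finitely generated group that acts on a tree without
inversions, such that the pointwise stabilizers of long paths have bounded order, is in `C` if the
vertex stabilizers are in `C`), that the vertex stabilizers are in `C` and that the stabilizers of two
edges at a vertex are commensurable or have at most `n` common elements. Suppose that for all edges
`vu` with stabilizer `E`, all groups `M ≥ E` contained in the commensurator of `E` in `G`, and all `x ≠ 1`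
in `E` there is a homomorphism `f` from `M` to a group in `C` as in (1), with `M` in place of `K⟨g⟩`. (It
suffices to know this for the whole commensurator.) Then `G` is in `C` (`DCm`). The case where `f` is the
same for all `x` in `E` is part (1) of `IsolatedEdgeGroups` (for `MP_b6f35e_al`).

Outline of the proof. If there is no homomorphism `f` from `K⟨g⟩` to a group in `C` such that the edge
group `E` meets the commutator subgroup of `S_f`, the stabilizer of `v` in `ker f`, trivially, then one
finds successively homomorphisms `f₀, f₁, ...` such that `fᵢ₊₁` is the product of `fᵢ` and a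
homomorphism for an element `xᵢ ≠ 1` of `E ∩ [S_fᵢ, S_fᵢ]`. Let `Lᵢ` be the group of the elements of
`E ∩ ker fᵢ` with a positive power in `[S_fᵢ, S_fᵢ]`. Then `xᵢ` is in `Lᵢ` and no positive power of `xᵢ` is in
`Lᵢ₊₁`, which contradicts the chain condition. For (2) one applies (1) to the stabilizers of the
cylinders of commensurable edge stabilizers (theorem on trees of cylinders, `t_cyf`).
-/

set_option autoImplicit false

namespace Pool.Agent.Results.MP_2a547c_gt.DetectedEdgeGroups

open Pool.Agent.Y110.FJ (ClosedE)
open Pool.Agent.N509.TK (Sb)
open Pool.Agent.N509.TX (AcylF)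
open Pool.Agent.N508.CS

theorem result (C : ∀ (G : Type) [Group G], Prop) (hC : ClosedE C)
    (hM : ∀ (G : Type) [Group G], derivedSeries G 2 = ⊥ → C G)
    {G V : Type} [Group G] [MulAction G V] (T : SimpleGraph V) (hT : T.IsTree)
    (hact : ∀ (g : G) (u v : V), T.Adj u v → T.Adj (g • u) (g • v)) :
    (∀ (K : Subgroup G) [K.Normal], C (G ⧸ K) →
      (∀ (g : G) (v : V), C ↥(MulAction.stabilizer ↥(K ⊔ Subgroup.zpowers g) v)) →
      (∀ v u : V, T.Adj v u → FRP (Ed G v u) ∧ ∀ x ∈ Ed G v u, IsOfFinOrder x → x = 1) →
      (∀ (g : G) (v u : V), T.Adj v u → ∀ x : ↥(K ⊔ Subgroup.zpowers g),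
        x • v = v → x • u = u → x ≠ 1 →
        ∃ (P : Type) (_ : Group P) (f : ↥(K ⊔ Subgroup.zpowers g) →* P), C P ∧
          ∀ m : ℕ, 0 < m → f x ^ m = 1 → x ^ m ∉ ⁅Sb f.ker v, Sb f.ker v⁆) → C G) ∧
    (AcylF C → (∀ v : V, C ↥(MulAction.stabilizer G v)) → ∀ n : ℕ, DCm C n G T → C G) :=
  ⟨fun K _ hQ hV hE hx => t_eh t_ea t_frp C hC hM G V T hT hact K hQ hV hE hx,
    fun hA hV n hE => t_dc (t_dcy (t_eh t_ea t_frp)) t_cyf C hC hM hA n G V T hT hact hV hE⟩

end Pool.Agent.Results.MP_2a547c_gt.DetectedEdgeGroups
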