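import Pool.Agent.N506.PN.PH
import Pool.Agent.N506.FZ0

/-!
# Finite decomposition complexity of automorphism groups of extensions

Let `Q` be a group such that every finitely generated subgroup of `Q` has a subgroup of finite index
which embeds in a direct product `S × RAAG Γ`, where `S` has a finite subnormal series with
torsion-free abelian factors.

1. Let `N` be a normal subgroup of a group `Γ` with `Γ ⧸ N = Q` such that `N`, with the conjugation
   action, is a free module of finite rank over `(ℤ/m)[Q]` (for example `Γ = (ℤ/m)^r ≀ Q`).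
2. Let `R` be a normal subgroup of a free group `F` of finite rank with `F ⧸ R = Q`, let `c ≥ 0`,
   `Γ = F ⧸ γ_{c+1}(R)` and `N = R ⧸ γ_{c+1}(R)` (`pn R [c] = γ_{c+1}(R)`).

In both cases every group `B` of automorphisms of `Γ` which map `N` onto itself has finite
decomposition complexity if its image in `Aut(Q)` has.
-/

namespace Pool.Agent.Results.MP_2a547c_gt.ExtensionAutomorphismsFDC

open Pool.Agent.N506.EX Pool.Agent.N506.FX Pool.Agent.N506.PN

theorem result :
    (∀ (Γ : Type) [Group Γ] (N : Subgroup Γ) [N.Normal] (m r : ℕ),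
      LocSpec (Γ ⧸ N) → FreeMod N m r → FdcAutOver N) ∧
    (∀ (n c : ℕ) (R : Subgroup (FreeGroup (Fin n))) [R.Normal],
      LocSpec (FreeGroup (Fin n) ⧸ R) → FdcAutOver (topP R [c])) := by
  constructor
  · intro Γ _ N _ m r hQ hF B hB h
    exact fdc_of_quot N (fdc_autTriv_free N (mfd_locally (ZMod m) _ hQ) hF) hB h
  · intro n c R _ hQ B hB h
    exact fdc_of_quot (topP R [c]) (fdc_one n R hQ c) hB h

end Pool.Agent.Results.MP_2a547c_gt.ExtensionAutomorphismsFDC
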