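import Pool.Agent.N77.OF.Sh

/-!
# The automorphism groups of free products of three groups

`C` is any class of groups with the closure properties `ClosedE C` which contains the metabelian groups
and the groups `F ⋊ Z` for free groups `F`; all of this is published for the class of the groups which
satisfy the Farrell–Jones Conjecture for A-theory (and K- and L-theory) with coefficients and finite
wreath products.

Let `M 0`, `M 1`, `M 2` be nontrivial groups whose automorphism groups are in `C`, and let
`P = SymAut (fac M) ≤ Aut (M 0 * M 1 * M 2)` be the group of all automorphisms which map each of the three factors onto a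
conjugate of itself. Then `P` and its quotient by the inner automorphisms are in `C`.

If the three groups are freely indecomposable and not infinite cyclic then `P` has finite index in
`Aut (M 0 * M 1 * M 2)` by the theorem of Kurosh. If they are infinite cyclic then the quotient of `P`
by the inner automorphisms is (up to finite index) the group of McCool.

Outline of the proof.

* For `m ∈ M i` let `pc i m` be the partial conjugation which maps `x ∈ M (i+1)` to `m⁻¹ x m` and fixes the
  other two factors. They define a homomorphism `W` from the free product `G` to `Aut G`. Every
  automorphism in `P` is a product of an inner automorphism, of an element of the image of `W` and of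
  automorphisms of the factors: if it maps `x ∈ M i` to `u_i ψ_i(x) u_i⁻¹`, then either all `u_i⁻¹ u_j` can be made
  trivial, or a move `pc i m` makes their reduced words shorter.
* `G` acts on the triples `u ∈ G³`; the element `m ∈ M i` multiplies `u_{i+1}` on the left by `u_i m u_i⁻¹`. Say
  that `u_i` is in the middle if the reduced words of `u_i⁻¹ u_{i+1}` and of `u_i⁻¹ u_{i+2}` have different first
  syllables in `M i`. If `u_i` is in the middle then `u_j` is not for `j ≠ i`, and the moves `m ≠ 1` of `M j` map
  all triples for which `u_j` is not in the middle to triples for which it is. So every `w ≠ 1` in `G` maps the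
  triple `(1, 1, 1)` to a triple with a middle (ping-pong), and this shows that `P / Inn G` is isomorphic to
  `(M 0 * M 1 * M 2) ⋊ (Aut (M 0) × Aut (M 1) × Aut (M 2))`.
* This semidirect product and then `P` are in `C` by the theorem `MP_490288_al.FreeProductExtensions` on
  extensions whose kernel is a free product, because `A ⟨g⟩` has a homomorphism with abelian kernel to the
  product of a cyclic group and `Aut A` if `g` normalizes `A`.

The parts BASE, MUL, LEN, RGT, NRM, PP, TRI, INJ, EXA, GEN, FWR, CYC, SEMI, INN were written by helper527,
helper966, helper335, helper401, helper216, helper564, helper134, helper364, helper878, helper55, helper255,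
helper56, helper907 and helper195.
-/

set_option autoImplicit false

namespace Pool.Agent.Results.MP_2a547c_gt.FreeProductsOfThreeGroups

open Pool.Agent.Y110.FJ (ClosedE)
open Pool.Agent.N77.OF (SymAut ModInn fac Fund)

theorem result {C : ∀ (G : Type) [Group G], Prop} (hC : ClosedE C) (hF : Fund C)
    {M : Fin 3 → Type} [∀ i, Group (M i)] (hne : ∀ i, Nontrivial (M i))
    (hA : ∀ i, C (MulAut (M i))) :
    C (SymAut (fac M)) ∧ ∀ (Q : Type) [Group Q], ModInn (SymAut (fac M)) Q → C Q :=
  Pool.Agent.N77.OF.short hC hF hne hA

end Pool.Agent.Results.MP_2a547c_gt.FreeProductsOfThreeGroups
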